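import Pool.Agent.W952.LP.Stm
import Pool.Agent.H685R3.Inv2

/-!
# Presentations of Polish spaces relative to an oracle: degrees

Relativised jump inversion, and a nontrivial degree which is low over a given degree.
-/

set_option autoImplicit false

namespace Pool.Agent.W952.LP

open Pool.Agent.Helper227 Pool.Agent.H685R3 Encodable

theorem prf_rec {Φ : (ℕ → ℕ) → ℕ → ℕ} (h : PRF Φ) (g : ℕ → ℕ) :
    Nat.RecursiveIn {fun n => Part.some (g n)} fun n => Part.some (Φ g n) := by
  induction h with
  | zero => exact Nat.RecursiveIn.zero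
  | succ => exact Nat.RecursiveIn.succ
  | left => exact Nat.RecursiveIn.left
  | right => exact Nat.RecursiveIn.right
  | oracle => exact Nat.RecursiveIn.oracle _ rfl
  | pair _ _ h1 h2 =>
    refine (Nat.RecursiveIn.pair h1 h2).of_eq fun n => ?_
    simp [Seq.seq]
  | comp _ _ h1 h2 =>
    refine (Nat.RecursiveIn.comp h1 h2).of_eq fun n => ?_
    simp
  | @prec Φ Ψ _ _ h1 h2 =>
    refine (Nat.RecursiveIn.prec h1 h2).of_eq fun n => ?_
    simp only
    generalize n.unpair.2 = m
    induction m with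
    | zero => rfl
    | succ m ih =>
      simp only [ih]
      simp

theorem pLe_tLe {x y : ℕ → Bool} (h : PLe x y) : TLe x y := by
  obtain ⟨Φ, hΦ, e⟩ := h
  have h1 := prf_rec hΦ fun m => (y m).toNat
  refine RecursiveIn.iff_nat.2 ?_
  exact h1.of_eq fun n => by rw [← e n]; rfl

theorem psi_le (x : ℕ → Bool) : TLe (Psi x) x := by
  obtain ⟨Φ, hΦ, e⟩ := isPRMap_Psi
  exact pLe_tLe ⟨Φ, hΦ, e x⟩

theorem theta_le (x : ℕ → Bool) : TLe (Theta x) x := by
  obtain ⟨Φ, hΦ, e⟩ := isPRMap_Theta
  exact pLe_tLe ⟨Φ, hΦ, e x⟩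

theorem join_even' (x y : ℕ → Bool) (n : ℕ) : join x y (2 * n) = x n := by
  simp only [join]
  rw [if_pos (by omega)]
  congr 1
  omega

theorem join_odd' (x y : ℕ → Bool) (n : ℕ) : join x y (2 * n + 1) = y n := by
  simp only [join]
  rw [if_neg (by omega)]
  congr 1
  omega

theorem join_le {x y w : ℕ → Bool} (h1 : TLe x w) (h2 : TLe y w) : TLe (join x y) w := by
  rw [tLe_iff_SI] at h1 h2 ⊢
  have hm : PrimrecPred fun q : ℕ × Bool => q.1 % 2 = 0 :=
    Primrec.eq.comp (Primrec.nat_mod.comp Primrec.fst (Primrec.const 2)) (Primrec.const 0)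
  have hd : Primrec fun q : ℕ × Bool => (q.1 / 2, q.2) :=
    (Primrec.nat_div.comp Primrec.fst (Primrec.const 2)).pair Primrec.snd
  refine (SI.or (SI.and (SI.of_prim hm) (h1.comp hd))
    (SI.and (SI.of_prim hm.not) (h2.comp hd))).of_eq fun q => ?_
  simp only [join]
  by_cases h0 : q.1 % 2 = 0 <;> simp [h0]

theorem le_join_right (x y : ℕ → Bool) : TLe y (join x y) := by
  have hf : Primrec fun n : ℕ => 2 * n + 1 :=
    Primrec.succ.comp (Primrec.nat_mul.comp (Primrec.const 2) Primrec.id)
  exact tLe_of_computable hf.to_comp fun n => (join_odd' x y n).symm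

theorem inv : S_inv := by
  intro z x h
  have hx : ∀ n, join (jump z) x (2 * n) = jump z n := join_even' _ _
  obtain ⟨h1, h2, h3⟩ := inversion hx
  refine ⟨_, h1, ?_, ?_⟩
  · rw [h2]
    exact TuringReducible.trans (psi_le _) (join_le h (TuringReducible.refl _))
  · have h4 : TLe (join (jump z) x) (jump (Pool.Agent.H685R3.inv z (join (jump z) x))) := by
      have h5 := theta_le (Psi (join (jump z) x))
      rw [h3] at h5
      rwa [h2]
    exact TuringReducible.trans (le_join_right _ _) h4

theorem gen {z x : ℕ → Bool} (hx : ∀ n, x (2 * n) = jump z n) :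
    ¬ TLe (Pool.Agent.H685R3.inv z x) z := by
  intro hle
  have hl : TLe (lim z x) z := by
    refine TuringReducible.trans ?_ hle
    have hf : Primrec fun n : ℕ => 2 * n + 1 :=
      Primrec.succ.comp (Primrec.nat_mul.comp (Primrec.const 2) Primrec.id)
    exact tLe_of_computable hf.to_comp fun n => (inv_odd n).symm
  rw [tLe_iff_SI] at hl
  obtain ⟨E, hE, mE, eE⟩ := hl
  have hu : US fun B (q : ℕ × Bool) => ∃ s, E (pre B s, q) := ⟨E, hE, mE, fun _ _ => Iff.rfl⟩
  have hp : US fun B (_ : Unit) => ∃ q : ℕ × Bool, (∃ s, E (pre (fun n => B (2 * n)) s, q)) ∧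
      B (2 * q.1 + 1) = !q.2 := by
    refine US.ex (p := fun B (_ : Unit) (q : ℕ × Bool) =>
      (∃ s, E (pre (fun n => B (2 * n)) s, q)) ∧ B (2 * q.1 + 1) = !q.2) (US.and ?_ ?_)
    · exact hu.even.comp (f := fun y : Unit × ℕ × Bool => y.2) Primrec.snd
    · exact US.query.comp (f := fun y : Unit × ℕ × Bool => (2 * y.2.1 + 1, !y.2.2))
        ((Primrec.succ.comp (Primrec.nat_mul.comp (Primrec.const 2)
          (Primrec.fst.comp Primrec.snd))).pair (Primrec.not.comp (Primrec.snd.comp Primrec.snd)))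
  obtain ⟨f, -, ef⟩ := hp.to_jump
  set e := f () with he
  have ez : ∀ B : ℕ → Bool, (fun n => B (2 * n)) = z →
      (jump B e = true ↔ ∃ i, B (2 * i + 1) ≠ lim z x i) := by
    intro B hB
    rw [← ef B ()]
    rw [hB]
    constructor
    · rintro ⟨q, h1, h2⟩
      have h3 := (eE q).2 h1
      refine ⟨q.1, ?_⟩
      rw [h2, h3]
      cases q.2 <;> simp
    · rintro ⟨i, hi⟩
      refine ⟨(i, lim z x i), (eE _).1 rfl, ?_⟩
      simp only
      cases h4 : B (2 * i + 1) <;> cases h5 : lim z x i <;> simp_all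
  have h0 : ¬ Psi x e = true := by
    rw [← jump_inv hx, ez _ (funext fun n => inv_even n)]
    rintro ⟨i, hi⟩
    exact hi (inv_odd i)
  rw [psi_iff hx] at h0
  apply h0
  set σ := V z x e with hσ
  -- the deviating real
  let b : ℕ → Bool := fun i => if i < σ.length then σ.getD i false else !lim z x i
  have hB : (fun n => join z b (2 * n)) = z := funext fun n => join_even' z b n
  have h1 : jump (join z b) e = true := by
    rw [ez _ hB]
    refine ⟨σ.length, ?_⟩
    rw [join_odd']
    simp [b]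
  obtain ⟨k, hk⟩ := jump_iff.1 h1
  refine ⟨pre b (max σ.length k), ?_, pre (join z b) k, ⟨?_, hk⟩, ?_⟩
  · simp only
    refine List.ext_getElem (by simp) fun i h2 h3 => ?_
    rw [List.getElem_take, getElem_pre]
    simp [b, h3]
  · simp only [length_pre]
    omega
  · intro i hi
    rw [length_pre] at hi
    rw [pre_getD _ _ _ _ hi]
    by_cases h2 : i % 2 = 0
    · refine Or.inl ⟨h2, ?_⟩
      conv_rhs => rw [show i = 2 * (i / 2) by omega]
      rw [join_even']
    · refine Or.inr ⟨h2, ?_⟩
      rw [pre_getD _ _ _ _ (by omega)]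
      conv_rhs => rw [show i = 2 * (i / 2) + 1 by omega]
      rw [join_odd']

theorem low : S_low := by
  intro z
  have hx : ∀ n, join (jump z) (fun _ => false) (2 * n) = jump z n := join_even' _ _
  obtain ⟨h1, h2, -⟩ := inversion hx
  refine ⟨_, h1, gen hx, ?_⟩
  rw [h2]
  refine TuringReducible.trans (psi_le _) (join_le (TuringReducible.refl _) ?_)
  rw [tLe_iff_SI]
  exact SI.of_prim (Primrec.eq.comp (Primrec.const false) Primrec.snd)

end Pool.Agent.W952.LP
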