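import Pool.Agent.W952.LP.Stm

/-!
# Presentations of Polish spaces relative to an oracle: normal form of the second jump
-/

set_option autoImplicit false

namespace Pool.Agent.W952.LP

open Pool.Agent.Helper227 Pool.Agent.H685R3 Encodable

/-- the witnesses -/
abbrev Wt := List Bool × ℕ × ℕ × ℕ

theorem sig2 : S_sig2 := by
  intro D
  obtain ⟨q0, hq0, -, e0⟩ := s1_Halt
  obtain ⟨E1, hE1, mE1, e1⟩ := si_jump D
  obtain ⟨q1, hq1, mq1, e1'⟩ := hE1
  -- the matrix
  let Q : List Bool × (ℕ × Wt × (ℕ × ℕ)) → Prop := fun x =>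
    q0 (x.2.1, x.2.2.1.1) x.2.2.1.2.1 ∧ ∀ i < x.2.2.1.1.length,
      (x.2.2.1.1.getD i false = true ∧ q1 (x.1.take x.2.2.1.2.2.1, i) x.2.2.1.2.2.2) ∨
      (x.2.2.1.1.getD i false = false ∧ ¬ q1 (x.1.take x.2.2.2.1, i) x.2.2.2.2)
  have hQ : PrimrecPred Q := by
    refine PrimrecPred.and ?_ ?_
    · exact hq0.comp (Primrec.pair (Primrec.fst.comp Primrec.snd)
        (Primrec.fst.comp (Primrec.fst.comp (Primrec.snd.comp Primrec.snd))))
        (Primrec.fst.comp (Primrec.snd.comp (Primrec.fst.comp (Primrec.snd.comp Primrec.snd))))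
    · refine PP.all_lt (α := List Bool × (ℕ × Wt × (ℕ × ℕ))) (p := fun x i =>
        (x.2.2.1.1.getD i false = true ∧ q1 (x.1.take x.2.2.1.2.2.1, i) x.2.2.1.2.2.2) ∨
        (x.2.2.1.1.getD i false = false ∧ ¬ q1 (x.1.take x.2.2.2.1, i) x.2.2.2.2))
        (f := fun x => x.2.2.1.1.length) ?_ (Primrec.list_length.comp (Primrec.fst.comp
          (Primrec.fst.comp (Primrec.snd.comp Primrec.snd))))
      have hw : Primrec fun y : (List Bool × (ℕ × Wt × (ℕ × ℕ))) × ℕ => y.1.2.2.1 :=
        Primrec.fst.comp (Primrec.snd.comp (Primrec.snd.comp Primrec.fst))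
      have hb : Primrec fun y : (List Bool × (ℕ × Wt × (ℕ × ℕ))) × ℕ => y.1.2.2.2 :=
        Primrec.snd.comp (Primrec.snd.comp (Primrec.snd.comp Primrec.fst))
      have hg : Primrec fun y : (List Bool × (ℕ × Wt × (ℕ × ℕ))) × ℕ =>
          y.1.2.2.1.1.getD y.2 false :=
        (Primrec.list_getD false).comp (Primrec.fst.comp hw) Primrec.snd
      refine PrimrecPred.or (PrimrecPred.and (Primrec.eq.comp hg (Primrec.const true)) ?_)
        (PrimrecPred.and (Primrec.eq.comp hg (Primrec.const false)) (PrimrecPred.not ?_))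
      · exact hq1.comp (Primrec.pair (Primrec.list_take.comp (Primrec.fst.comp (Primrec.snd.comp
          (Primrec.snd.comp hw))) (Primrec.fst.comp Primrec.fst)) Primrec.snd)
          (Primrec.snd.comp (Primrec.snd.comp (Primrec.snd.comp hw)))
      · exact hq1.comp (Primrec.pair (Primrec.list_take.comp (Primrec.fst.comp hb)
          (Primrec.fst.comp Primrec.fst)) Primrec.snd) (Primrec.snd.comp hb)
  let N : ℕ × Wt × (ℕ × ℕ) → ℕ := fun x => max x.2.1.2.2.1 x.2.2.1
  have hN : Primrec N := Primrec.nat_max.comp
    (Primrec.fst.comp (Primrec.snd.comp (Primrec.snd.comp (Primrec.fst.comp Primrec.snd))))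
    (Primrec.fst.comp (Primrec.snd.comp Primrec.snd))
  let F : ℕ → ℕ × Wt × (ℕ × ℕ) := fun c => (c.unpair.1,
    (decode (α := Wt) c.unpair.2.unpair.1).getD ([], 0, 0, 0), c.unpair.2.unpair.2.unpair)
  have hF : Primrec F := by
    have h2 : Primrec fun c : ℕ => c.unpair.2.unpair :=
      Primrec.unpair.comp (Primrec.snd.comp Primrec.unpair)
    exact Primrec.pair (Primrec.fst.comp Primrec.unpair) (Primrec.pair (Primrec.option_getD.comp
      (Primrec.decode.comp (Primrec.fst.comp h2)) (Primrec.const _))
      (Primrec.unpair.comp (Primrec.snd.comp h2)))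
  have hFp : ∀ (n : ℕ) (w : Wt) (b : ℕ),
      F (Nat.pair n (Nat.pair (encode w) b)) = (n, w, b.unpair) := by
    intro n w b
    simp only [F, Nat.unpair_pair, encodek, Option.getD_some]
  have h1 := (US.at_pre hQ hN).toSI D
  have h2 := (US.at_pre (Q := fun x => ¬ Q x) hQ.not hN).toSI D
  classical
  refine ⟨fun c => decide (Q (pre D (N (F c)), F c)), ?_, fun n => ?_⟩
  · rw [tLe_iff_SI]
    refine (SI.or (SI.and (h1.comp (f := fun x : ℕ × Bool => F x.1) (hF.comp Primrec.fst))
      (SI.of_prim (Primrec.eq.comp Primrec.snd (Primrec.const true))))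
      (SI.and (h2.comp (f := fun x : ℕ × Bool => F x.1) (hF.comp Primrec.fst))
      (SI.of_prim (Primrec.eq.comp Primrec.snd (Primrec.const false))))).of_eq fun x => ?_
    by_cases h3 : Q (pre D (N (F x.1)), F x.1)
    · cases h4 : x.2 <;> simp [h3]
    · cases h4 : x.2 <;> simp [h3]
  · simp only [decide_eq_true_eq]
    have htake : ∀ s t, s ≤ t → (pre D t).take s = pre D s := fun s t h => take_pre _ _ _ h
    have key : ∀ (n : ℕ) (w : Wt) (b : ℕ), Q (pre D (N (n, w, b.unpair)), (n, w, b.unpair)) ↔
        q0 (n, w.1) w.2.1 ∧ ∀ i < w.1.length,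
          (w.1.getD i false = true ∧ q1 (pre D w.2.2.1, i) w.2.2.2) ∨
          (w.1.getD i false = false ∧ ¬ q1 (pre D b.unpair.1, i) b.unpair.2) := by
      intro n w b
      simp only [Q, N]
      rw [htake _ _ (le_max_left _ _), htake _ _ (le_max_right _ _)]
    rw [jump_iff]
    constructor
    · rintro ⟨k, hk⟩
      obtain ⟨m, hm⟩ := (e0 (n, pre (jump D) k)).1 hk
      -- a common stage
      have hs : ∃ s, ∀ i < k, jump D i = true → E1 (pre D s, i) := by
        have : ∀ k, ∃ s, ∀ i < k, jump D i = true → E1 (pre D s, i) := by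
          intro k
          induction k with
          | zero => exact ⟨0, fun i hi => absurd hi (by omega)⟩
          | succ k ih =>
            obtain ⟨s, hs⟩ := ih
            by_cases hk : jump D k = true
            · obtain ⟨t, ht⟩ := (e1 k).1 hk
              refine ⟨max s t, fun i hi hj => ?_⟩
              rcases Nat.lt_succ_iff_lt_or_eq.1 hi with h | h
              · exact mE1 _ _ _ (pre_prefix D (le_max_left _ _)) (hs i h hj)
              · subst h
                exact mE1 _ _ _ (pre_prefix D (le_max_right _ _)) ht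
            · refine ⟨s, fun i hi hj => ?_⟩
              rcases Nat.lt_succ_iff_lt_or_eq.1 hi with h | h
              · exact hs i h hj
              · subst h
                exact absurd hj hk
        exact this k
      obtain ⟨s, hs⟩ := hs
      have hm' : ∃ m', ∀ i < k, jump D i = true → q1 (pre D s, i) m' := by
        have : ∀ l ≤ k, ∃ m', ∀ i < l, jump D i = true → q1 (pre D s, i) m' := by
          intro l
          induction l with
          | zero => exact fun _ => ⟨0, fun i hi => absurd hi (by omega)⟩
          | succ l ih =>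
            intro hl
            obtain ⟨m1, h3⟩ := ih (by omega)
            by_cases hk : jump D l = true
            · obtain ⟨t, ht⟩ := (e1' _).1 (hs l (by omega) hk)
              refine ⟨max m1 t, fun i hi hj => ?_⟩
              rcases Nat.lt_succ_iff_lt_or_eq.1 hi with h | h
              · exact mq1 _ _ _ (le_max_left _ _) (h3 i h hj)
              · subst h
                exact mq1 _ _ _ (le_max_right _ _) ht
            · refine ⟨m1, fun i hi hj => ?_⟩
              rcases Nat.lt_succ_iff_lt_or_eq.1 hi with h | h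
              · exact h3 i h hj
              · subst h
                exact absurd hj hk
        exact this k le_rfl
      obtain ⟨m', hm'⟩ := hm'
      refine ⟨encode ((pre (jump D) k, m, s, m') : Wt), fun b => ?_⟩
      rw [hFp, key]
      refine ⟨hm, fun i hi => ?_⟩
      simp only [length_pre] at hi ⊢
      rw [pre_getD _ _ _ _ hi]
      cases hj : jump D i with
      | true => exact Or.inl ⟨rfl, hm' i hi hj⟩
      | false =>
        refine Or.inr ⟨rfl, fun h4 => ?_⟩
        have h5 : jump D i = true := (e1 i).2 ⟨_, (e1' _).2 ⟨_, h4⟩⟩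
        rw [hj] at h5
        cases h5
    · rintro ⟨a, ha⟩
      -- replace the code by a genuine witness
      have hw : ∀ b : ℕ, F (Nat.pair n (Nat.pair a b)) =
          (n, (decode (α := Wt) a).getD ([], 0, 0, 0), b.unpair) := by
        intro b
        simp only [F, Nat.unpair_pair]
      generalize hwd : (decode (α := Wt) a).getD ([], 0, 0, 0) = w at hw
      have hb : ∀ b : ℕ, q0 (n, w.1) w.2.1 ∧ ∀ i < w.1.length,
          (w.1.getD i false = true ∧ q1 (pre D w.2.2.1, i) w.2.2.2) ∨
          (w.1.getD i false = false ∧ ¬ q1 (pre D b.unpair.1, i) b.unpair.2) := by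
        intro b
        have := ha b
        rwa [hw b, key] at this
      refine ⟨w.1.length, ?_⟩
      have hpre : pre (jump D) w.1.length = w.1 := by
        refine List.ext_getElem (by simp) fun i h3 h4 => ?_
        rw [getElem_pre]
        have h5 : w.1[i] = w.1.getD i false := (List.getD_eq_getElem _ _ h4).symm
        rw [h5]
        rcases (hb 0).2 i h4 with ⟨h6, h7⟩ | ⟨h6, -⟩
        · rw [h6]
          exact (e1 i).2 ⟨_, (e1' _).2 ⟨_, h7⟩⟩
        · rw [h6]
          by_contra h8
          have h9 : jump D i = true := by simpa using h8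
          obtain ⟨s, hs⟩ := (e1 i).1 h9
          obtain ⟨t, ht⟩ := (e1' _).1 hs
          rcases (hb (Nat.pair s t)).2 i h4 with ⟨h10, -⟩ | ⟨-, h10⟩
          · rw [h6] at h10
            cases h10
          · apply h10
            simpa using ht
      rw [hpre]
      exact (e0 (n, w.1)).2 ⟨_, (hb 0).1⟩

end Pool.Agent.W952.LP
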