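import Pool.Agent.W952.LP.Defs

/-!
# Presentations of Polish spaces relative to an oracle: the statements of the parts
-/

set_option autoImplicit false

namespace Pool.Agent.W952.LP

open Pool.Agent.Helper227 Pool.Agent.H685R3

namespace Gd

variable (G : Gd)

/-- The open piece of an arc. -/
def arcO (g i : ℕ) (a b : ℝ) : Set (ℝ × ℝ × ℝ) :=
  {p | ∃ y : ℝ, a < y ∧ y < b ∧ 0 < y ∧ y < 1 ∧ G.Reach g y ∧ p = G.pt g i y}

/-- The closed piece of an arc. -/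
def arcC (g i : ℕ) (a b : ℝ) : Set (ℝ × ℝ × ℝ) :=
  {p | ∃ y : ℝ, a ≤ y ∧ y ≤ b ∧ G.Reach g y ∧ p = G.pt g i y}

/-- The gadget without its spine point. -/
def bun (g : ℕ) : Set (ℝ × ℝ × ℝ) :=
  {p | ∃ i : ℕ, ∃ y : ℝ, i < G.nn g ∧ 0 < y ∧ G.Reach g y ∧ p = G.pt g i y}

end Gd

/-- A cover of the set `Z` by connected closed sets with the nerve of the theta graph. -/
structure PatOn (Z : Set (ℝ × ℝ × ℝ)) (n : ℕ) (K : ℕ → Set (ℝ × ℝ × ℝ)) : Prop where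
  closed : ∀ t < 3 * n + 2, IsClosed (K t)
  conn : ∀ t < 3 * n + 2, IsConnected (K t)
  sub : ∀ t < 3 * n + 2, K t ⊆ Z
  cover : ∀ x ∈ Z, ∃ t < 3 * n + 2, x ∈ K t
  adj : ∀ s t, s < t → t < 3 * n + 2 → Adj s t → (K s ∩ K t).Nonempty
  nadj : ∀ s t, s < t → t < 3 * n + 2 → ¬ Adj s t → Disjoint (K s) (K t)

/-! ## Topology of the space -/

def S_compact : Prop := ∀ G : Gd, IsCompact G.Sp

def S_conn : Prop := ∀ G : Gd, IsConnected G.Sp

def S_dim : Prop := ∀ K : Set (ℝ × ℝ × ℝ), IsCompact K → DimLE K 7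

/-- points of the arcs -/
def S_inj : Prop := ∀ (G : Gd) (g h i j : ℕ) (y y' : ℝ), G.pt g i y = G.pt h j y' →
  g = h ∧ y = y' ∧ (i = j ∨ y = 0 ∨ y = 1)

/-- fibres of the first coordinate -/
def S_fib : Prop := ∀ (G : Gd) (p : ℝ × ℝ × ℝ), p ∈ G.Sp →
  0 ≤ p.1 ∧ p.1 ≤ 1 ∧ ((∀ g : ℕ, p.1 ≠ (1 / 2 : ℝ) ^ g) → p = (p.1, 0, 0)) ∧
    ∀ g : ℕ, p.1 = (1 / 2 : ℝ) ^ g → p = ((1 / 2 : ℝ) ^ g, 0, 0) ∨ p ∈ G.bun g

/-- the gadget without its spine point is relatively open, and becomes closed with this point -/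
def S_bun : Prop := ∀ (G : Gd) (g : ℕ), G.bun g ⊆ G.Sp ∧
  (∃ O : Set (ℝ × ℝ × ℝ), IsOpen O ∧ O ∩ G.Sp = G.bun g) ∧
    IsClosed (G.bun g ∪ {((1 / 2 : ℝ) ^ g, 0, 0)})

/-- open pieces of arcs are relatively open -/
def S_arcO : Prop := ∀ (G : Gd) (g i : ℕ) (a b : ℝ), i < G.nn g →
  ∃ O : Set (ℝ × ℝ × ℝ), IsOpen O ∧ O ∩ G.Sp = G.arcO g i a b

/-- closed pieces of arcs are compact and connected -/
def S_arcC : Prop := ∀ (G : Gd) (g i : ℕ) (a b : ℝ),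
  IsCompact (G.arcC g i a b) ∧ IsPreconnected (G.arcC g i a b)

/-- Lemma A -/
def S_A : Prop := ∀ (G : Gd) (n : ℕ) (K : ℕ → Set (ℝ × ℝ × ℝ)), 3 ≤ n → PatOn G.Sp n K →
  ∃ g, G.Complete g ∧ G.nn g = n

/-- existence of the pattern at a complete gadget -/
def S_room : Prop := ∀ (G : Gd) (g : ℕ), G.Complete g → 1 ≤ G.nn g →
  ∃ K U : ℕ → Set G.Sp, IsRoom (G.nn g) K U

/-! ## Coded open sets -/

/-- from the coded open sets to the pattern -/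
def S_back : Prop := ∀ (Y : Type) [MetricSpace Y] [CompactSpace Y] (y : ℕ → Y), DenseRange y →
  ∀ (n : ℕ) (P : List (List (ℕ × ℕ) × List (ℕ × ℕ))) (u : ℕ),
    Cond (fun q => dist (y q.1) (y q.2.1) < ratVal q.2.2) n P u →
    ∃ K : ℕ → Set Y, IsPattern n K

/-- from the pattern to the coded open sets -/
def S_forth : Prop := ∀ (Y : Type) [MetricSpace Y] [CompactSpace Y] (y : ℕ → Y), DenseRange y →
  ∀ (n : ℕ) (K U : ℕ → Set Y), IsRoom n K U →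
    ∃ (P : List (List (ℕ × ℕ) × List (ℕ × ℕ))) (u : ℕ),
      Cond (fun q => dist (y q.1) (y q.2.1) < ratVal q.2.2) n P u

/-! ## Computability -/

/-- the complexity of the existence of coded open sets -/
def S_cx : Prop := ∀ Lt : ℕ × ℕ × ℕ → Prop, S1 Lt →
  SI (jump (jump zero)) fun n : ℕ =>
    ∃ (P : List (List (ℕ × ℕ) × List (ℕ × ℕ))) (u : ℕ), Cond Lt n P u

/-- the strict inequality is computably enumerable -/
def S_lt : Prop := ∀ (d : ℕ → ℕ → ℝ) (f : ℕ → ℕ), CompIn zero f →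
  (∀ i j n : ℕ, |d i j - ratVal (f (Nat.pair i (Nat.pair j n)))| ≤ (1 / 2 : ℝ) ^ n) →
  S1 fun q : ℕ × ℕ × ℕ => d q.1 q.2.1 < ratVal q.2.2

/-- the enumeration of the gadget points is decidable -/
def S_flag : Prop := ∀ (D : ℕ → Bool) (G : Gd), Primrec G.nn → TLe (tab G) D → TLe (flag G) D

/-- the distances are computable -/
def S_comp : Prop := ∀ (D : ℕ → Bool) (nn : ℕ → ℕ) (fl : ℕ → Bool), Primrec nn → TLe fl D →
  CompIn D fun m => dnum (cd nn m.unpair.1 (fl (m.unpair.1 / 2)))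
    (cd nn m.unpair.2.unpair.1 (fl (m.unpair.2.unpair.1 / 2)))

def S_dist : Prop := ∀ c c' : ℕ × ℕ × ℕ × ℕ, dist (pnt c) (pnt c') = ratVal (dnum c c')

def S_mem : Prop := ∀ (G : Gd) (k : ℕ), pnt (sq G k) ∈ G.Sp

def S_dense : Prop := ∀ (G : Gd) (p : ℝ × ℝ × ℝ), p ∈ G.Sp → ∀ ε : ℝ, 0 < ε →
  ∃ k, dist p (pnt (sq G k)) < ε

/-! ## Degrees -/

/-- a degree above `z` that is low over `z` and not below `z` -/
def S_low : Prop := ∀ z : ℕ → Bool, ∃ Z : ℕ → Bool, TLe z Z ∧ ¬ TLe Z z ∧ TLe (jump Z) (jump z)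

/-- relativised jump inversion -/
def S_inv : Prop := ∀ z x : ℕ → Bool, TLe (jump z) x →
  ∃ y : ℕ → Bool, TLe z y ∧ TLe (jump y) x ∧ TLe x (jump y)

/-- normal form of the second jump -/
def S_sig2 : Prop := ∀ D : ℕ → Bool, ∃ R : ℕ → Bool, TLe R D ∧
  ∀ n, jump (jump D) n = true ↔ ∃ a, ∀ b, R (Nat.pair n (Nat.pair a b)) = true

end Pool.Agent.W952.LP
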