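import Pool.Agent.H685R3.Om

/-!
# Presentations of Polish spaces relative to an oracle: definitions

`Sp G` is the compact connected space of the construction: a spine `[0,1]` with a gadget at every
point `2^(-g)`, which is a bundle of `nn g` arcs starting at the spine point; the arcs meet again at
their other end exactly if the gadget is complete.
-/

set_option autoImplicit false

namespace Pool.Agent.W952.LP

open Pool.Agent.Helper227 Pool.Agent.H685R3

/-! ## Definitions used in the final statement -/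

/-- The nonnegative rational number with code `u`. -/
noncomputable def ratVal (u : ℕ) : ℝ := (u.unpair.1 : ℝ) / ((u.unpair.2 : ℝ) + 1)

/-- The total function `f` is computable with oracle `D`. -/
def CompIn (D : ℕ → Bool) (f : ℕ → ℕ) : Prop :=
  TuringReducible (fun n => Part.some (f n)) (chi D)

/-- The space `X` has a `D`-computable presentation: a complete metric compatible with the
topology, a dense sequence `x`, and a `D`-computable function which sends `(i, j, n)` to a rational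
number within `2 ^ (-n)` of the distance of `x i` and `x j`. -/
def Presented (D : ℕ → Bool) (X : Type) [t : TopologicalSpace X] : Prop :=
  ∃ m : MetricSpace X, m.toPseudoMetricSpace.toUniformSpace.toTopologicalSpace = t ∧
    @CompleteSpace X m.toPseudoMetricSpace.toUniformSpace ∧
    ∃ x : ℕ → X, DenseRange x ∧ ∃ f : ℕ → ℕ, CompIn D f ∧
      ∀ i j n : ℕ, |m.dist (x i) (x j) - ratVal (f (Nat.pair i (Nat.pair j n)))| ≤ (1 / 2 : ℝ) ^ n

/-- The covering dimension of `X` is at most `m`: every finite open cover has a finite open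
refinement such that every point is in at most `m + 1` of its members. -/
def DimLE (X : Type) [TopologicalSpace X] (m : ℕ) : Prop :=
  ∀ (ι : Type) [Finite ι] (U : ι → Set X), (∀ i, IsOpen (U i)) → (⋃ i, U i) = Set.univ →
    ∃ (κ : Type) (_ : Finite κ) (V : κ → Set X), (∀ k, IsOpen (V k)) ∧ (⋃ k, V k) = Set.univ ∧
      (∀ k, ∃ i, V k ⊆ U i) ∧ ∀ x, Set.ncard {k | x ∈ V k} ≤ m + 1

/-- The empty oracle. -/
def zero : ℕ → Bool := fun _ => false

/-! ## The space -/

/-- The data of the construction: `nn g` is the number of arcs of gadget `g`, and gadget `g` is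
complete iff for all `b` there is `c` with `T g b c`. -/
structure Gd where
  /-- the number of arcs -/
  nn : ℕ → ℕ
  /-- the table -/
  T : ℕ → ℕ → ℕ → Bool

namespace Gd

variable (G : Gd)

/-- The first `b0` requirements of gadget `g` are met. -/
def Good (g b0 : ℕ) : Prop := ∀ b < b0, ∃ c, G.T g b c = true

/-- All requirements of gadget `g` are met. -/
def Complete (g : ℕ) : Prop := ∀ b, ∃ c, G.T g b c = true

/-- The size of gadget `g`. -/
noncomputable def eps (g : ℕ) : ℝ := (1 / 2 : ℝ) ^ (g + G.nn g)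

/-- The height `y` is reached by the arcs of gadget `g`. -/
def Reach (g : ℕ) (y : ℝ) : Prop :=
  0 ≤ y ∧ y ≤ 1 ∧ (G.Complete g ∨ ∃ b0, G.Good g b0 ∧ y ≤ 1 - (1 / 2 : ℝ) ^ b0)

/-- The point at height `y` of arc `i` of gadget `g`. -/
noncomputable def pt (g i : ℕ) (y : ℝ) : ℝ × ℝ × ℝ :=
  ((1 / 2 : ℝ) ^ g, G.eps g * y, G.eps g * (i * (y * (1 - y))))

/-- The space. -/
def Sp : Set (ℝ × ℝ × ℝ) :=
  {p | ∃ x : ℝ, 0 ≤ x ∧ x ≤ 1 ∧ p = (x, 0, 0)} ∪
  {p | ∃ g i : ℕ, ∃ y : ℝ, i < G.nn g ∧ G.Reach g y ∧ p = G.pt g i y}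

end Gd

/-! ## The pattern of closed sets

The index `0` is the top piece, `1` the bottom piece, and the arc `i` has the three pieces
`3 * i + 2` (upper), `3 * i + 3` (middle), `3 * i + 4` (lower). -/

/-- The pieces `s < t` are neighbours. -/
def Adj (s t : ℕ) : Prop :=
  (s = 0 ∧ t % 3 = 2) ∨ (s = 1 ∧ t % 3 = 1 ∧ 4 ≤ t) ∨ (2 ≤ s ∧ t = s + 1 ∧ s % 3 ≠ 1)

/-- A cover by connected closed sets with the nerve of the theta graph with `n` arcs. -/
structure IsPattern {X : Type} [TopologicalSpace X] (n : ℕ) (K : ℕ → Set X) : Prop where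
  closed : ∀ t < 3 * n + 2, IsClosed (K t)
  conn : ∀ t < 3 * n + 2, IsConnected (K t)
  cover : ∀ x, ∃ t < 3 * n + 2, x ∈ K t
  adj : ∀ s t, s < t → t < 3 * n + 2 → Adj s t → (K s ∩ K t).Nonempty
  nadj : ∀ s t, s < t → t < 3 * n + 2 → ¬ Adj s t → Disjoint (K s) (K t)

/-- A cover by closed sets `K t` inside connected open sets `U t` with the nerve of the theta graph
with `n` arcs, such that non-neighbours among the `U t` have disjoint closures. -/
structure IsRoom {X : Type} [TopologicalSpace X] (n : ℕ) (K U : ℕ → Set X) : Prop where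
  closed : ∀ t < 3 * n + 2, IsClosed (K t)
  nonempty : ∀ t < 3 * n + 2, (K t).Nonempty
  cover : ∀ x, ∃ t < 3 * n + 2, x ∈ K t
  adj : ∀ s t, s < t → t < 3 * n + 2 → Adj s t → (K s ∩ K t).Nonempty
  opn : ∀ t < 3 * n + 2, IsOpen (U t)
  conn : ∀ t < 3 * n + 2, IsPreconnected (U t)
  sub : ∀ t < 3 * n + 2, K t ⊆ U t
  nadj : ∀ s t, s < t → t < 3 * n + 2 → ¬ Adj s t → Disjoint (closure (U s)) (closure (U t))

/-! ## Coded open sets

`Lt (k, i, u)` stands for: the distance of the dense points `k` and `i` is less than `ratVal u`. A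
finite union of rational balls is coded by the list of the pairs (centre, radius). -/

/-- The dense point `k` is in the open set coded by `L`. -/
def InO (Lt : ℕ × ℕ × ℕ → Prop) (k : ℕ) (L : List (ℕ × ℕ)) : Prop := ∃ p ∈ L, Lt (k, p.1, p.2)

/-- The small open set of piece `t`. -/
def oS (P : List (List (ℕ × ℕ) × List (ℕ × ℕ))) (t : ℕ) : List (ℕ × ℕ) := (P.getD t ([], [])).1

/-- The large open set of piece `t`. -/
def oL (P : List (List (ℕ × ℕ) × List (ℕ × ℕ))) (t : ℕ) : List (ℕ × ℕ) := (P.getD t ([], [])).2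

/-- `c` is a chain of dense points from `k` to `l` with steps less than `ratVal e` in the open set
coded by `L`. -/
def IsCh (Lt : ℕ × ℕ × ℕ → Prop) (L : List (ℕ × ℕ)) (k l e : ℕ) (c : List ℕ) : Prop :=
  0 < c.length ∧ c.getD 0 0 = k ∧ c.getD (c.length - 1) 0 = l ∧
    (∀ j < c.length - 1, Lt (c.getD j 0, c.getD (j + 1) 0, e)) ∧
    ∀ j < c.length, InO Lt (c.getD j 0) L

/-- The coded open sets `P` with separation `ratVal u` describe a cover with the nerve of the theta
graph with `n` arcs. -/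
structure Cond (Lt : ℕ × ℕ × ℕ → Prop) (n : ℕ) (P : List (List (ℕ × ℕ) × List (ℕ × ℕ))) (u : ℕ) :
    Prop where
  pos : 0 < u.unpair.1
  cover : ∀ k, ∃ t < 3 * n + 2, InO Lt k (oS P t)
  nonempty : ∀ t < 3 * n + 2, ∃ k, InO Lt k (oS P t)
  adj : ∀ t < 3 * n + 2, ∀ s < t, Adj s t → ∃ k, InO Lt k (oS P s) ∧ InO Lt k (oS P t)
  nadj : ∀ t < 3 * n + 2, ∀ s < t, ¬ Adj s t → ∀ k l, InO Lt k (oL P s) → InO Lt l (oL P t) →
    ¬ Lt (k, l, u)
  chain : ∀ t < 3 * n + 2, ∀ k l e, InO Lt k (oS P t) → InO Lt l (oS P t) → 0 < e.unpair.1 →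
    ∃ c, IsCh Lt (oL P t) k l e c

/-! ## The dense sequence of the space -/

/-- The point with dyadic coordinates `c.1 / 2 ^ K`, `c.2.1 / 2 ^ K`, `c.2.2.1 / 2 ^ K`,
`K = c.2.2.2`. -/
noncomputable def pnt (c : ℕ × ℕ × ℕ × ℕ) : ℝ × ℝ × ℝ :=
  ((c.1 : ℝ) / 2 ^ c.2.2.2, (c.2.1 : ℝ) / 2 ^ c.2.2.2, (c.2.2.1 : ℝ) / 2 ^ c.2.2.2)

/-- The absolute value of `a - b`. -/
def nd (a b : ℕ) : ℕ := (a - b) + (b - a)

/-- The code of the distance of two points with dyadic coordinates. -/
def dnum (c c' : ℕ × ℕ × ℕ × ℕ) : ℕ :=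
  Nat.pair (max (nd (c.1 * 2 ^ c'.2.2.2) (c'.1 * 2 ^ c.2.2.2))
    (max (nd (c.2.1 * 2 ^ c'.2.2.2) (c'.2.1 * 2 ^ c.2.2.2))
      (nd (c.2.2.1 * 2 ^ c'.2.2.2) (c'.2.2.1 * 2 ^ c.2.2.2))))
    (2 ^ (c.2.2.2 + c'.2.2.2) - 1)

/-- `k` codes a height `m / 2 ^ l` on arc `i` of gadget `g` together with `b0` and `s`:
`k = ⟨g, i, b0, m, l, s⟩`. -/
def ug (k : ℕ) : ℕ := k.unpair.1
/-- the arc -/
def ui (k : ℕ) : ℕ := k.unpair.2.unpair.1
/-- the number of requirements -/
def ub (k : ℕ) : ℕ := k.unpair.2.unpair.2.unpair.1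
/-- the numerator of the height -/
def um (k : ℕ) : ℕ := k.unpair.2.unpair.2.unpair.2.unpair.1
/-- the exponent of the height -/
def ul (k : ℕ) : ℕ := k.unpair.2.unpair.2.unpair.2.unpair.2.unpair.1
/-- the stage -/
def us (k : ℕ) : ℕ := k.unpair.2.unpair.2.unpair.2.unpair.2.unpair.2

/-- The gadget point with code `k` has been enumerated. -/
def Flag (G : Gd) (k : ℕ) : Prop :=
  ui k < G.nn (ug k) ∧ um k * 2 ^ ub k + 2 ^ ul k ≤ 2 ^ (ul k + ub k) ∧
    ∀ b < ub k, ∃ c < us k, G.T (ug k) b c = true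

open Classical in
/-- The truth value of `Flag`. -/
noncomputable def flag (G : Gd) (k : ℕ) : Bool := decide (Flag G k)

/-- The coordinates of the dense point with number `k`; `fl` tells whether the gadget point has been
enumerated. Even numbers code points of the spine, odd numbers points of the gadgets. -/
def cd (nn : ℕ → ℕ) (k : ℕ) (fl : Bool) : ℕ × ℕ × ℕ × ℕ :=
  if k % 2 = 0 then
    (if (k / 2).unpair.1 ≤ 2 ^ (k / 2).unpair.2 then ((k / 2).unpair.1, 0, 0, (k / 2).unpair.2)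
      else (0, 0, 0, 0))
  else
    (if fl then
      (2 ^ (nn (ug (k / 2)) + 2 * ul (k / 2)), um (k / 2) * 2 ^ ul (k / 2),
        ui (k / 2) * (um (k / 2) * (2 ^ ul (k / 2) - um (k / 2))),
        ug (k / 2) + nn (ug (k / 2)) + 2 * ul (k / 2))
      else (0, 0, 0, 0))

/-- The coordinates of the dense point with number `k`. -/
noncomputable def sq (G : Gd) (k : ℕ) : ℕ × ℕ × ℕ × ℕ := cd G.nn k (flag G (k / 2))

/-- The table as a function of one number. -/
def tab (G : Gd) (m : ℕ) : Bool := G.T m.unpair.1 m.unpair.2.unpair.1 m.unpair.2.unpair.2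

end Pool.Agent.W952.LP
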