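import Pool.Agent.W952.LP.Stm

/-!
# Presentations of Polish spaces relative to an oracle: assembly
-/

set_option autoImplicit false

namespace Pool.Agent.W952.LP

open Pool.Agent.Helper227 Pool.Agent.H685R3 Topology

/-- The degree of the construction. -/
theorem deg (hlow : S_low) (hinv : S_inv) : ∃ D : ℕ → Bool,
    ¬ TLe (jump (jump D)) (jump (jump zero)) ∧ TLe (jn D 4) (jn zero 4) ∧
      TLe (jn zero 4) (jn D 4) := by
  obtain ⟨Z, hZ1, hZ2, hZ3⟩ := hlow (jump (jump zero))
  obtain ⟨y, hy1, hy2, hy3⟩ := hinv (jump zero) Z hZ1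
  obtain ⟨D, hD1, hD2, hD3⟩ := hinv zero y hy1
  have e1 : TLe (jump (jump D)) Z := TuringReducible.trans hD2.jump hy2
  have e2 : TLe Z (jump (jump D)) := TuringReducible.trans hy3 hD3.jump
  refine ⟨D, fun h => hZ2 (TuringReducible.trans e2 h), ?_, ?_⟩
  · have h3 : TLe (jump (jump (jump D))) (jump (jump (jump zero))) :=
      TuringReducible.trans e1.jump hZ3
    exact h3.jump
  · exact hD1.jump.jump.jump.jump

/-- The gadgets of the construction. -/
def gd (R : ℕ → Bool) : Gd where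
  nn g := if g % 2 = 0 then 3 + 2 * (g / 2).unpair.1 else 4 + 2 * (g / 2)
  T g b c := if g % 2 = 0 then R (Nat.pair (g / 2).unpair.1 (Nat.pair (g / 2).unpair.2 b))
    else !R (Nat.pair (g / 2) (Nat.pair b c))

theorem gd_nn (R : ℕ → Bool) : Primrec (gd R).nn := by
  have h2 : Primrec fun g : ℕ => g / 2 := Primrec.nat_div.comp Primrec.id (Primrec.const 2)
  refine Primrec.ite (Primrec.eq.comp (Primrec.nat_mod.comp Primrec.id (Primrec.const 2))
    (Primrec.const 0)) ?_ ?_
  · exact Primrec.nat_add.comp (Primrec.const 3) (Primrec.nat_mul.comp (Primrec.const 2)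
      (Primrec.fst.comp (Primrec.unpair.comp h2)))
  · exact Primrec.nat_add.comp (Primrec.const 4) (Primrec.nat_mul.comp (Primrec.const 2) h2)

theorem gd_tab {R D : ℕ → Bool} (h : TLe R D) : TLe (tab (gd R)) D := by
  rw [tLe_iff_SI] at h ⊢
  have hg : Primrec fun x : ℕ × Bool => x.1.unpair.1 :=
    Primrec.fst.comp (Primrec.unpair.comp Primrec.fst)
  have hb : Primrec fun x : ℕ × Bool => x.1.unpair.2.unpair.1 :=
    Primrec.fst.comp (Primrec.unpair.comp (Primrec.snd.comp (Primrec.unpair.comp Primrec.fst)))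
  have hc : Primrec fun x : ℕ × Bool => x.1.unpair.2.unpair.2 :=
    Primrec.snd.comp (Primrec.unpair.comp (Primrec.snd.comp (Primrec.unpair.comp Primrec.fst)))
  have h2 : Primrec fun x : ℕ × Bool => x.1.unpair.1 / 2 :=
    Primrec.nat_div.comp hg (Primrec.const 2)
  have hp : PrimrecPred fun x : ℕ × Bool => x.1.unpair.1 % 2 = 0 :=
    Primrec.eq.comp (Primrec.nat_mod.comp hg (Primrec.const 2)) (Primrec.const 0)
  have h1 : SI D fun x : ℕ × Bool =>
      (x.1.unpair.1 % 2 = 0 ∧ R (Nat.pair (x.1.unpair.1 / 2).unpair.1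
        (Nat.pair (x.1.unpair.1 / 2).unpair.2 x.1.unpair.2.unpair.1)) = x.2) ∨
      (¬ x.1.unpair.1 % 2 = 0 ∧ R (Nat.pair (x.1.unpair.1 / 2)
        (Nat.pair x.1.unpair.2.unpair.1 x.1.unpair.2.unpair.2)) = !x.2) := by
    refine SI.or (SI.and (SI.of_prim hp) ?_) (SI.and (SI.of_prim hp.not) ?_)
    · exact h.comp (f := fun x : ℕ × Bool => (Nat.pair (x.1.unpair.1 / 2).unpair.1
        (Nat.pair (x.1.unpair.1 / 2).unpair.2 x.1.unpair.2.unpair.1), x.2))
        ((Primrec₂.natPair.comp (Primrec.fst.comp (Primrec.unpair.comp h2))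
          (Primrec₂.natPair.comp (Primrec.snd.comp (Primrec.unpair.comp h2)) hb)).pair Primrec.snd)
    · exact h.comp (f := fun x : ℕ × Bool => (Nat.pair (x.1.unpair.1 / 2)
        (Nat.pair x.1.unpair.2.unpair.1 x.1.unpair.2.unpair.2), !x.2))
        ((Primrec₂.natPair.comp h2 (Primrec₂.natPair.comp hb hc)).pair
          (Primrec.not.comp Primrec.snd))
  refine h1.of_eq fun x => ?_
  simp only [tab, gd]
  by_cases h0 : x.1.unpair.1 % 2 = 0
  · simp [h0]
  · simp only [h0, false_and, not_false_eq_true, true_and, false_or, if_false]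
    cases R (Nat.pair (x.1.unpair.1 / 2)
      (Nat.pair x.1.unpair.2.unpair.1 x.1.unpair.2.unpair.2)) <;> cases x.2 <;> simp

theorem gd_pos {R D : ℕ → Bool}
    (h : ∀ n, jump (jump D) n = true ↔ ∃ a, ∀ b, R (Nat.pair n (Nat.pair a b)) = true) (n : ℕ) :
    jump (jump D) n = true ↔ ∃ g, (gd R).Complete g ∧ (gd R).nn g = 3 + 2 * n := by
  rw [h]
  constructor
  · rintro ⟨a, ha⟩
    refine ⟨2 * Nat.pair n a, fun b => ⟨0, ?_⟩, ?_⟩
    · have h1 : 2 * Nat.pair n a % 2 = 0 := by omega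
      have h2 : 2 * Nat.pair n a / 2 = Nat.pair n a := by omega
      simp only [gd, h1, h2, if_true, Nat.unpair_pair]
      exact ha b
    · have h1 : 2 * Nat.pair n a % 2 = 0 := by omega
      have h2 : 2 * Nat.pair n a / 2 = Nat.pair n a := by omega
      simp only [gd, h1, h2, if_true, Nat.unpair_pair]
  · rintro ⟨g, h1, h2⟩
    by_cases h0 : g % 2 = 0
    · simp only [gd, h0, if_true] at h2
      refine ⟨(g / 2).unpair.2, fun b => ?_⟩
      obtain ⟨c, hc⟩ := h1 b
      simp only [gd, h0, if_true] at hc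
      rwa [show (g / 2).unpair.1 = n by omega] at hc
    · simp only [gd, h0, if_false] at h2
      omega

theorem gd_neg {R D : ℕ → Bool}
    (h : ∀ n, jump (jump D) n = true ↔ ∃ a, ∀ b, R (Nat.pair n (Nat.pair a b)) = true) (n : ℕ) :
    jump (jump D) n = false ↔ ∃ g, (gd R).Complete g ∧ (gd R).nn g = 4 + 2 * n := by
  rw [← Bool.not_eq_true, h]
  push Not
  constructor
  · intro ha
    refine ⟨2 * n + 1, fun b => ?_, ?_⟩
    · obtain ⟨c, hc⟩ := ha b
      have h1 : ¬ (2 * n + 1) % 2 = 0 := by omega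
      have h2 : (2 * n + 1) / 2 = n := by omega
      refine ⟨c, ?_⟩
      simp only [gd, h1, h2, if_false]
      simpa using hc
    · have h1 : ¬ (2 * n + 1) % 2 = 0 := by omega
      have h2 : (2 * n + 1) / 2 = n := by omega
      simp only [gd, h1, h2, if_false]
  · rintro ⟨g, h1, h2⟩ a
    by_cases h0 : g % 2 = 0
    · simp only [gd, h0, if_true] at h2
      omega
    · simp only [gd, h0, if_false] at h2
      obtain ⟨c, hc⟩ := h1 a
      simp only [gd, h0, if_false] at hc
      rw [show g / 2 = n by omega] at hc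
      exact ⟨c, by simpa using hc⟩

/-- The space is presented relative to `D`. -/
theorem pres (hcpt : S_compact) (hflag : S_flag) (hcomp : S_comp) (hdist : S_dist) (hmem : S_mem)
    (hdense : S_dense) {D : ℕ → Bool} {G : Gd} (h1 : Primrec G.nn) (h2 : TLe (tab G) D) :
    Presented D G.Sp := by
  have : CompactSpace G.Sp := isCompact_iff_compactSpace.1 (hcpt G)
  refine ⟨inferInstance, rfl, inferInstance, fun k => ⟨pnt (sq G k), hmem G k⟩, ?_,
    fun m => dnum (cd G.nn m.unpair.1 (flag G (m.unpair.1 / 2)))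
      (cd G.nn m.unpair.2.unpair.1 (flag G (m.unpair.2.unpair.1 / 2))),
    hcomp D G.nn (flag G) h1 (hflag D G h1 h2), fun i j n => ?_⟩
  · rw [Metric.denseRange_iff]
    intro x r hr
    obtain ⟨k, hk⟩ := hdense G x x.2 r hr
    exact ⟨k, hk⟩
  · simp only [Nat.unpair_pair]
    have h3 : dist (pnt (sq G i)) (pnt (sq G j)) = ratVal (dnum (sq G i) (sq G j)) := hdist _ _
    have h4 : dist (⟨pnt (sq G i), hmem G i⟩ : G.Sp) ⟨pnt (sq G j), hmem G j⟩ =
        ratVal (dnum (sq G i) (sq G j)) := h3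
    change |dist (⟨pnt (sq G i), hmem G i⟩ : G.Sp) ⟨pnt (sq G j), hmem G j⟩ -
      ratVal (dnum (sq G i) (sq G j))| ≤ _
    rw [h4, sub_self, abs_zero]
    positivity

section transport

variable {X Y : Type} [TopologicalSpace X] [TopologicalSpace Y]

theorem IsRoom.map {n : ℕ} {K U : ℕ → Set X} (h : IsRoom n K U) (f : X ≃ₜ Y) :
    IsRoom n (fun t => f '' K t) fun t => f '' U t where
  closed t ht := f.isClosed_image.2 (h.closed t ht)
  nonempty t ht := (h.nonempty t ht).image _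
  cover y := by
    obtain ⟨t, ht, h1⟩ := h.cover (f.symm y)
    exact ⟨t, ht, f.symm y, h1, by simp⟩
  adj s t hs ht ha := by
    obtain ⟨x, h1, h2⟩ := h.adj s t hs ht ha
    exact ⟨f x, ⟨x, h1, rfl⟩, ⟨x, h2, rfl⟩⟩
  opn t ht := f.isOpen_image.2 (h.opn t ht)
  conn t ht := (h.conn t ht).image _ f.continuous.continuousOn
  sub t ht := Set.image_mono (h.sub t ht)
  nadj s t hs ht ha := by
    rw [← f.image_closure, ← f.image_closure]
    exact (Set.disjoint_image_iff f.injective).2 (h.nadj s t hs ht ha)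

theorem IsPattern.map {n : ℕ} {K : ℕ → Set X} (h : IsPattern n K) (f : X ≃ₜ Y) :
    IsPattern n fun t => f '' K t where
  closed t ht := f.isClosed_image.2 (h.closed t ht)
  conn t ht := (h.conn t ht).image _ f.continuous.continuousOn
  cover y := by
    obtain ⟨t, ht, h1⟩ := h.cover (f.symm y)
    exact ⟨t, ht, f.symm y, h1, by simp⟩
  adj s t hs ht ha := by
    obtain ⟨x, h1, h2⟩ := h.adj s t hs ht ha
    exact ⟨f x, ⟨x, h1, rfl⟩, ⟨x, h2, rfl⟩⟩
  nadj s t hs ht ha := (Set.disjoint_image_iff f.injective).2 (h.nadj s t hs ht ha)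

end transport

theorem IsPattern.patOn {Z : Set (ℝ × ℝ × ℝ)} (hZ : IsCompact Z) {n : ℕ} {K : ℕ → Set Z}
    (h : IsPattern n K) : PatOn Z n fun t => Subtype.val '' K t where
  closed t ht := hZ.isClosed.isClosedEmbedding_subtypeVal.isClosed_iff_image_isClosed.1
    (h.closed t ht)
  conn t ht := (h.conn t ht).image _ continuous_subtype_val.continuousOn
  sub t _ := by
    rintro _ ⟨x, _, rfl⟩
    exact x.2
  cover x hx := by
    obtain ⟨t, ht, h1⟩ := h.cover ⟨x, hx⟩
    exact ⟨t, ht, ⟨x, hx⟩, h1, rfl⟩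
  adj s t hs ht ha := by
    obtain ⟨x, h1, h2⟩ := h.adj s t hs ht ha
    exact ⟨x, ⟨x, h1, rfl⟩, ⟨x, h2, rfl⟩⟩
  nadj s t hs ht ha :=
    (Set.disjoint_image_iff Subtype.val_injective).2 (h.nadj s t hs ht ha)

/-- The space has no presentation relative to the empty oracle. -/
theorem npres (hcpt : S_compact) (hA : S_A) (hroom : S_room) (hback : S_back) (hforth : S_forth)
    (hcx : S_cx) (hlt : S_lt) {D R : ℕ → Bool}
    (hD : ¬ TLe (jump (jump D)) (jump (jump zero)))
    (hR : ∀ n, jump (jump D) n = true ↔ ∃ a, ∀ b, R (Nat.pair n (Nat.pair a b)) = true)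
    (Y : Type) [t : TopologicalSpace Y] (hY : Presented zero Y) : IsEmpty ((gd R).Sp ≃ₜ Y) := by
  refine ⟨fun f => hD ?_⟩
  obtain ⟨m, rfl, -, y, hy, e, he, hd⟩ := hY
  have : CompactSpace (gd R).Sp := isCompact_iff_compactSpace.1 (hcpt _)
  have hYc : CompactSpace Y := f.compactSpace
  have hS1 := hlt (fun i j => dist (y i) (y j)) e he hd
  have hSI := hcx _ hS1
  have key : ∀ n, 3 ≤ n → ((∃ (P : List (List (ℕ × ℕ) × List (ℕ × ℕ))) (u : ℕ),
      Cond (fun q : ℕ × ℕ × ℕ => dist (y q.1) (y q.2.1) < ratVal q.2.2) n P u) ↔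
      ∃ g, (gd R).Complete g ∧ (gd R).nn g = n) := by
    intro n hn
    constructor
    · rintro ⟨P, u, h1⟩
      obtain ⟨K, hK⟩ := hback Y y hy n P u h1
      exact hA (gd R) n _ hn ((hK.map f.symm).patOn (hcpt _))
    · rintro ⟨g, h1, rfl⟩
      obtain ⟨K, U, hK⟩ := hroom (gd R) g h1 (by omega)
      exact hforth Y y hy _ _ _ (hK.map f)
  rw [tLe_iff_SI]
  have h3 : Primrec fun x : ℕ × Bool => 3 + 2 * x.1 :=
    Primrec.nat_add.comp (Primrec.const 3) (Primrec.nat_mul.comp (Primrec.const 2) Primrec.fst)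
  have h4 : Primrec fun x : ℕ × Bool => 4 + 2 * x.1 :=
    Primrec.nat_add.comp (Primrec.const 4) (Primrec.nat_mul.comp (Primrec.const 2) Primrec.fst)
  refine (SI.or (SI.and (SI.of_prim (Primrec.eq.comp Primrec.snd (Primrec.const true)))
    (hSI.comp h3)) (SI.and (SI.of_prim (Primrec.eq.comp Primrec.snd (Primrec.const false)))
    (hSI.comp h4))).of_eq fun x => ?_
  rw [key _ (by omega), key _ (by omega), ← gd_pos hR, ← gd_neg hR]
  rcases x with ⟨n, b⟩
  cases b <;> simp

/-- The final statement, from the parts. -/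
theorem fin (hcpt : S_compact) (hconn : S_conn) (hdim : S_dim) (hA : S_A) (hroom : S_room)
    (hback : S_back) (hforth : S_forth) (hcx : S_cx) (hlt : S_lt) (hflag : S_flag)
    (hcomp : S_comp) (hdist : S_dist) (hmem : S_mem) (hdense : S_dense) (hlow : S_low)
    (hinv : S_inv) (hsig : S_sig2) :
    ∃ D : ℕ → Bool, (TLe (jn D 4) (jn zero 4) ∧ TLe (jn zero 4) (jn D 4)) ∧
      ∃ (X : Type) (_ : TopologicalSpace X), PolishSpace X ∧ CompactSpace X ∧ ConnectedSpace X ∧
        DimLE X 7 ∧ Presented D X ∧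
          ∀ (Y : Type) [TopologicalSpace Y], Presented zero Y → IsEmpty (X ≃ₜ Y) := by
  obtain ⟨D, hD, h1, h2⟩ := deg hlow hinv
  obtain ⟨R, hR1, hR2⟩ := hsig D
  refine ⟨D, ⟨h1, h2⟩, (gd R).Sp, inferInstance, (hcpt _).isClosed.polishSpace,
    isCompact_iff_compactSpace.1 (hcpt _), isConnected_iff_connectedSpace.1 (hconn _),
    hdim _ (hcpt _), pres hcpt hflag hcomp hdist hmem hdense (gd_nn R) (gd_tab hR1),
    fun Y _ hY => npres hcpt hA hroom hback hforth hcx hlt hD hR2 Y hY⟩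

end Pool.Agent.W952.LP
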