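import Pool.Agent.W952.LP.Fin

/-!
# Presentations of Polish spaces relative to an oracle: assembly with a low₃ oracle
-/

set_option autoImplicit false

namespace Pool.Agent.W952.LP

open Pool.Agent.Helper227 Pool.Agent.H685R3 Topology

/-- The degree of the construction is low₃. -/
theorem deg3 (hlow : S_low) (hinv : S_inv) : ∃ D : ℕ → Bool,
    ¬ TLe (jump (jump D)) (jump (jump zero)) ∧
      ∀ n, 3 ≤ n → TLe (jn D n) (jn zero n) ∧ TLe (jn zero n) (jn D n) := by
  obtain ⟨Z, hZ1, hZ2, hZ3⟩ := hlow (jump (jump zero))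
  obtain ⟨y, hy1, hy2, hy3⟩ := hinv (jump zero) Z hZ1
  obtain ⟨D, hD1, hD2, hD3⟩ := hinv zero y hy1
  have e1 : TLe (jump (jump D)) Z := TuringReducible.trans hD2.jump hy2
  have e2 : TLe Z (jump (jump D)) := TuringReducible.trans hy3 hD3.jump
  refine ⟨D, fun h => hZ2 (TuringReducible.trans e2 h), fun n hn => ?_⟩
  induction n, hn using Nat.le_induction with
  | base =>
    have h3 : TLe (jump (jump (jump D))) (jump (jump (jump zero))) :=
      TuringReducible.trans e1.jump hZ3
    exact ⟨h3, hD1.jump.jump.jump⟩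
  | succ n _ ih => exact ⟨ih.1.jump, ih.2.jump⟩

/-- The final statement, from the parts. -/
theorem fin3 (hcpt : S_compact) (hconn : S_conn) (hdim : S_dim) (hA : S_A) (hroom : S_room)
    (hback : S_back) (hforth : S_forth) (hcx : S_cx) (hlt : S_lt) (hflag : S_flag)
    (hcomp : S_comp) (hdist : S_dist) (hmem : S_mem) (hdense : S_dense) (hlow : S_low)
    (hinv : S_inv) (hsig : S_sig2) :
    ∃ D : ℕ → Bool, (∀ n, 3 ≤ n → TLe (jn D n) (jn zero n) ∧ TLe (jn zero n) (jn D n)) ∧
      ∃ (X : Type) (_ : TopologicalSpace X), PolishSpace X ∧ CompactSpace X ∧ ConnectedSpace X ∧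
        DimLE X 7 ∧ Presented D X ∧
          ∀ (Y : Type) [TopologicalSpace Y], Presented zero Y → IsEmpty (X ≃ₜ Y) := by
  obtain ⟨D, hD, h1⟩ := deg3 hlow hinv
  obtain ⟨R, hR1, hR2⟩ := hsig D
  refine ⟨D, h1, (gd R).Sp, inferInstance, (hcpt _).isClosed.polishSpace,
    isCompact_iff_compactSpace.1 (hcpt _), isConnected_iff_connectedSpace.1 (hconn _),
    hdim _ (hcpt _), pres hcpt hflag hcomp hdist hmem hdense (gd_nn R) (gd_tab hR1),
    fun Y _ hY => npres hcpt hA hroom hback hforth hcx hlt hD hR2 Y hY⟩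

end Pool.Agent.W952.LP
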